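import Pool.Agent.Lib.MP_a7ed83_ag.FDefs
import Pool.Agent.Lib.MP_a7ed83_ag.B.B13

/-!
# MP_a7ed83_ag : orbit intersections of two polarized maps, uniform bound (abelian group model)

For every `D` there is `N` such that for all quotients `X` of abelian groups `A` by at most `D`
affine maps, all `f`, `g` on `X` with lifts of Weil type `δ_f`, `δ_g` whose linear parts commute
after at most `D` iterations, all `P`, `Q` with infinite orbits: the set `S` of all `(m, n)` with
`f^m (P) = g^n (Q)` is a finite union of linear families, has at most `N` elements outside one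
linear family, and at most `N` elements if `δ_f`, `δ_g` are multiplicatively independent.

Co-authors: helper3, 5, 15, 24, 27, 34, 57, 61, 63, 75, 78, 82, 83, 90, 94, 98 (modules), helper51.
-/

open Polynomial

namespace Pool.Agent.Results.MP_a7ed83_ag.UniformBound

open OrbitIntersections

universe u v

/-- The cover used in the modules. -/
def cover {D : ℕ} {X : Type u} {A : Type v} [AddCommGroup A] {C : Covering D X A}
    {f g : X → X} {F : Lift C f} {G : Lift C g} {q : A → ℝ} (h : IsHeight F G q) :
    ETT.Cover D X A where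
  π := C.π
  Γ := C.Γ
  q := q
  surj := C.surj
  fib := C.fib
  card := C.card
  qpos := fun x hx => h.pos x hx
  qsmul := h.smul
  qinv := h.inv

theorem lift_poly {D : ℕ} {X : Type u} {A : Type v} [AddCommGroup A] {C : Covering D X A}
    {f : X → X} (F : Lift C f) : ∃ p : ℤ[X], p.Monic ∧ p.natDegree ≤ D ∧
    Squarefree (p.map (Int.castRingHom ℚ)) ∧ aeval F.α p = 0 := by
  obtain ⟨p, h1, h2, h3, h4, _⟩ := F.weil
  exact ⟨p, h1, h2, h3, h4⟩

/-- The lift used in the modules. -/
def liftf {D : ℕ} {X : Type u} {A : Type v} [AddCommGroup A] {C : Covering D X A}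
    {f g : X → X} {F : Lift C f} {G : Lift C g} {q : A → ℝ} (h : IsHeight F G q) :
    ETT.Lift (cover h) f where
  α := F.α
  z := F.z
  δ := F.δ
  lift := F.lift
  one_lt := F.one_lt
  eig := h.eigf
  poly := lift_poly F

/-- The lift used in the modules. -/
def liftg {D : ℕ} {X : Type u} {A : Type v} [AddCommGroup A] {C : Covering D X A}
    {f g : X → X} {F : Lift C f} {G : Lift C g} {q : A → ℝ} (h : IsHeight F G q) :
    ETT.Lift (cover h) g where
  α := G.α
  z := G.z
  δ := G.δ
  lift := G.lift
  one_lt := G.one_lt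
  eig := h.eigg
  poly := lift_poly G

/-- Main theorem. -/
theorem result : ∀ D : ℕ, ∃ N : ℕ, ∀ (X : Type u) (A : Type v) [AddCommGroup A]
    (C : Covering D X A) (f g : X → X) (F : Lift C f) (G : Lift C g) (q : A → ℝ) (P Q : X),
    IsHeight F G q → Commuting F G → InfOrbit f P → InfOrbit g Q →
    FinLin (Pairs f g P Q) ∧
    (∃ a b c d : ℕ, (Pairs f g P Q \ LinFam a b c d).encard ≤ N) ∧
    (Indep F.δ G.δ → (Pairs f g P Q).encard ≤ N) := by
  intro D
  obtain ⟨N, hN⟩ := ETT.main_comm.{u, v} D
  refine ⟨N, ?_⟩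
  intro X A _ C f g F G q P Q hq ⟨k, hk, hkD, hc, hcγ⟩ hP hQ
  exact hN X A (cover hq) f g (liftf hq) (liftg hq) P Q k F.weil G.weil hk hkD hc hcγ hP hQ

end Pool.Agent.Results.MP_a7ed83_ag.UniformBound
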